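import Mathlib
import Pool.Agent.Y548.HV.Defs
import Pool.Agent.Y548.HV.Single
import Pool.Agent.Y548.HV.Double

/-!
# Separating the variants of Halin's infinite ray theorem

There is a model of `RCA₀` and of `IΣ¹₁` (even of arithmetical comprehension and of `Σ¹₁` choice) in
which the four principles `IRT_XYS` for single rays hold and `IRT_DED` fails. Hence
`RCA₀ + IΣ¹₁ + IRT_XYS` does not prove `IRT_DED`, for `X ∈ {U, D}` and `Y ∈ {V, E}`.

The model is the standard one with all sets of numbers. So the point is that `IRT_DED` is false: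
the countable digraph of `Pool/Agent/H798R3/DirRay.lean` (used there for the problem
`MP_5d26dc_co`) has arbitrarily many, but not infinitely many, edge-disjoint directed double rays.
The principles for single rays are proved with a step that replaces `n` disjoint rays by `n + 1`
disjoint rays and keeps given initial segments: after a stable matching between the `n` rays and
many others, loops are erased.
-/

set_option autoImplicit false

namespace Pool.Agent.Results.MP_87773f_lc.SingleRaysNotDirectedDouble

open Pool.Agent.Helper617.RM Pool.Agent.Y579.HR Pool.Agent.Y548.HV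

/-- There is a model of `RCA₀ + IΣ¹₁` in which `IRT_UVS`, `IRT_UES`, `IRT_DVS` and `IRT_DES` hold
and `IRT_DED` fails. -/
theorem result : ∃ N : L2Structure.{0},
    IsModelRCA0 N ∧ Sigma11Induction N ∧ ArithComp N ∧ Sigma11Choice N ∧
    IRT N .U .V .S ∧ IRT N .U .E .S ∧ IRT N .D .V .S ∧ IRT N .D .E .S ∧
    ¬ IRT N .D .E .D := by
  refine ⟨fullModel, fullModel_isModel, full_sigma11Induction, fun _ _ => Set.mem_univ _, ?_,
    irt_single _ _, irt_single _ _, irt_single _ _, irt_single _ _, not_irt_DED⟩
  intro φ v h
  choose X _ Z _ hZ using h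
  refine ⟨{x : ℕ | ∃ n m, x = pr n m ∧ m ∈ X n}, Set.mem_univ _, fun n => ⟨Z n, Set.mem_univ _, ?_⟩⟩
  have h1 : sec fullModel {x : ℕ | ∃ n m, x = pr n m ∧ m ∈ X n} n = X n := by
    ext m
    constructor
    · rintro ⟨n', m', h2, h3⟩
      obtain ⟨rfl, rfl⟩ := pr_inj (a := n) (b := m) h2
      exact h3
    · intro h2
      exact ⟨n, m, rfl, h2⟩
  rw [h1]
  exact hZ n

end Pool.Agent.Results.MP_87773f_lc.SingleRaysNotDirectedDouble
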